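import Pool.Agent.H468Z.ConicMain

/-!
The smoothed condition number of conic programs: the expected logarithm of the condition number
is `O(log (m n / σ))`, uniformly in the cones and in the normalised data.
-/

set_option autoImplicit false

open MeasureTheory

namespace Pool.Agent.Results.MP_722786_an.SmoothedConic

open Pool.Agent.H468Z.Conic

/-- The condition number is a measurable function of the data with values in `[0, ∞]`, and the
expectation of the positive part of its logarithm (which is `+∞` where the condition number is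
`+∞`) is at most `K (1 + log (m n / σ))`. -/
theorem result : ∃ K : ℝ, ∀ (m n : ℕ), 1 ≤ m → 1 ≤ n →
    ∀ (C₁ : Set (Fin m → ℝ)) (C₂ : Set (Fin n → ℝ)),
      IsClosedConvexCone C₁ → IsClosedConvexCone C₂ →
      ∀ d₀ : Data m n, frob d₀ ≤ 1 → ∀ σ : ℝ, 0 < σ → σ ≤ 1 →
        Measurable (condNum C₁ C₂) ∧
        ∫⁻ d, (ENNReal.log (condNum C₁ C₂ d)).toENNReal ∂perturbation d₀ σ ≤
          ENNReal.ofReal (K * (1 + Real.log (m * n / σ))) :=
  ⟨12, fun _ _ hm hn C₁ C₂ h₁ h₂ d₀ hd₀ _ hσ hσ1 =>
    ⟨measurable_condNum C₁ C₂, expectation hm hn h₁ h₂ d₀ hd₀ hσ hσ1⟩⟩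

end Pool.Agent.Results.MP_722786_an.SmoothedConic
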